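import Pool.Agent.Lib_helper95.RC.State

/-!
# From the inequality for strict pairs to the entropies of all states, `3 ≤ α ≤ 4`
-/

open scoped BigOperators ComplexOrder Kronecker MatrixOrder Topology
open MeasureTheory Set Matrix Filter

namespace Pool.Agent.Lib_helper98.GC34

open Pool.Agent.RC Pool.Agent.Lib_helper98.Renyi

/-- the inequality for strict pairs and one exponent -/
def Strict (α : ℝ) : Prop :=
  ∀ {ι κ : Type} [Fintype ι] [DecidableEq ι] [Fintype κ] [DecidableEq κ]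
    (A₁ D₁ : Matrix ι ι ℂ) (A₂ D₂ : Matrix κ κ ℂ), (A₁ - D₁).PosDef → (A₁ + D₁).PosDef →
    (A₂ - D₂).PosDef → (A₂ + D₂).PosDef →
    G α A₁ D₁ * G α A₂ D₂ ≤ (2 ^ (α - 1) - 1) * G α (A₁ ⊗ₖ A₂) (D₁ ⊗ₖ D₂)

variable {ι κ : Type} [Fintype ι] [DecidableEq ι] [Fintype κ] [DecidableEq κ]

theorem shift_sub {A D : Matrix ι ι ℂ} (h : (A - D).PosSemidef) (j : ℕ) :
    (shift A j - D).PosDef := by
  have e : shift A j - D = ((1 / ((j : ℝ) + 1) : ℝ) : ℂ) • (1 : Matrix ι ι ℂ) + (A - D) := by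
    unfold shift; abel
  rw [e]
  exact (eps_posDef j).add_posSemidef h

theorem shift_add {A D : Matrix ι ι ℂ} (h : (A + D).PosSemidef) (j : ℕ) :
    (shift A j + D).PosDef := by
  have e : shift A j + D = ((1 / ((j : ℝ) + 1) : ℝ) : ℂ) • (1 : Matrix ι ι ℂ) + (A + D) := by
    unfold shift; abel
  rw [e]
  exact (eps_posDef j).add_posSemidef h

/-- all positive semidefinite pairs, one exponent -/
theorem psd_of_strict {α : ℝ} (h0 : 0 < α) (hS : Strict α)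
    {A₁ D₁ : Matrix ι ι ℂ} (h₁ : IsPsdPair A₁ D₁) {A₂ D₂ : Matrix κ κ ℂ}
    (h₂ : IsPsdPair A₂ D₂) :
    G α A₁ D₁ * G α A₂ D₂ ≤ (2 ^ (α - 1) - 1) * G α (A₁ ⊗ₖ A₂) (D₁ ⊗ₖ D₂) := by
  apply le_of_tendsto_of_tendsto'
    ((tendsto_G_shift h0 h₁.pos.1 h₁.herm).mul (tendsto_G_shift h0 h₂.pos.1 h₂.herm))
    ((tendsto_G_shift_kron h0 h₁.pos.1 h₁.herm h₂.pos.1 h₂.herm).const_mul (2 ^ (α - 1) - 1))
  intro j
  exact hS (shift A₁ j) D₁ (shift A₂ j) D₂ (shift_sub h₁.sub j) (shift_add h₁.add j)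
    (shift_sub h₂.sub j) (shift_add h₂.add j)

/-- all positive semidefinite pairs, the closed interval -/
theorem psd_closed (hS : ∀ α : ℝ, 3 < α → α < 4 → Strict α) (α : ℝ) (h3 : 3 ≤ α) (h4 : α ≤ 4)
    {A₁ D₁ : Matrix ι ι ℂ} (h₁ : IsPsdPair A₁ D₁) {A₂ D₂ : Matrix κ κ ℂ}
    (h₂ : IsPsdPair A₂ D₂) :
    G α A₁ D₁ * G α A₂ D₂ ≤ (2 ^ (α - 1) - 1) * G α (A₁ ⊗ₖ A₂) (D₁ ⊗ₖ D₂) := by
  have key : ∀ β : ℝ, 3 < β → β < 4 →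
      G β A₁ D₁ * G β A₂ D₂ ≤ (2 ^ (β - 1) - 1) * G β (A₁ ⊗ₖ A₂) (D₁ ⊗ₖ D₂) :=
    fun β hb3 hb4 => psd_of_strict (by linarith) (hS β hb3 hb4) h₁ h₂
  rcases eq_or_lt_of_le h3 with rfl | h3'
  · obtain ⟨t1, t2⟩ := tendsto_sides A₁ D₁ A₂ D₂ 3 (by norm_num) (𝓝[>] 3) nhdsWithin_le_nhds
    apply le_of_tendsto_of_tendsto t1 t2
    have hev : ∀ᶠ α : ℝ in 𝓝[>] 3, α ∈ Ioo (3 : ℝ) 4 := Ioo_mem_nhdsGT (by norm_num)
    filter_upwards [hev] with α hα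
    exact key α hα.1 hα.2
  rcases eq_or_lt_of_le h4 with rfl | h4'
  · obtain ⟨t1, t2⟩ := tendsto_sides A₁ D₁ A₂ D₂ 4 (by norm_num) (𝓝[<] 4) nhdsWithin_le_nhds
    apply le_of_tendsto_of_tendsto t1 t2
    have hev : ∀ᶠ α : ℝ in 𝓝[<] 4, α ∈ Ioo (3 : ℝ) 4 := Ioo_mem_nhdsLT (by norm_num)
    filter_upwards [hev] with α hα
    exact key α hα.1 hα.2
  exact key α h3' h4'

/-- the entropies of all states -/
theorem states_of_strict (hS : ∀ α : ℝ, 3 < α → α < 4 → Strict α)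
    {σ₁ : Fin 2 → Matrix ι ι ℂ} {σ₂ : Fin 2 → Matrix κ κ ℂ}
    (h₁ : ∀ x, IsDensity (σ₁ x)) (h₂ : ∀ x, IsDensity (σ₂ x)) (α : ℝ)
    (h3 : 3 ≤ α) (h4 : α ≤ 4) : Hsum α σ₁ σ₂ ≤ Fval α σ₁ σ₂ := by
  have h0 : 0 < α := by linarith
  have p₁ := psdPair_state h₁ h0
  have p₂ := psdPair_state h₂ h0
  apply Hsum_le_Fval h₁ h₂ h0 (by linarith)
  rw [p₁.Gfun_eq h0, p₂.Gfun_eq h0, (p₁.kron p₂).Gfun_eq h0]
  exact psd_closed hS α h3 h4 p₁ p₂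

end Pool.Agent.Lib_helper98.GC34
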